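import Pool.Agent.H252.IrrMulG

set_option autoImplicit false

namespace Pool.Agent.Results.MP_f44585_an.EveryBase

/-- `digit r z n` is the digit number `n + 1` after the radix point in the base-`r` expansion
of the real number `z` (the expansion ending in zeros if there are two). -/
noncomputable def digit (r : ℕ) (z : ℝ) (n : ℕ) : ℤ :=
  ⌊z * (r : ℝ) ^ (n + 1)⌋ - (r : ℤ) * ⌊z * (r : ℝ) ^ n⌋

/-- `blockEntropy r z k N` is the Shannon entropy of the distribution of the blocks of length `k`
read in the base-`r` digits of `z` at the starting places `n < N`. -/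
noncomputable def blockEntropy (r : ℕ) (z : ℝ) (k N : ℕ) : ℝ :=
  ∑ w : Fin k → Fin r, Real.negMulLog
    ((((Finset.range N).filter
      (fun n => ∀ i : Fin k, digit r z (n + (i : ℕ)) = ((w i : ℕ) : ℤ))).card : ℝ) / (N : ℝ))

/-- `z` is deterministic in base `r`: the entropy per digit of its empirical block distributions can
be made eventually as small as one wishes. -/
def Deterministic (r : ℕ) (z : ℝ) : Prop :=
  ∀ ε : ℝ, 0 < ε → ∃ k : ℕ, 1 ≤ k ∧ ∃ N₀ : ℕ, ∀ N : ℕ, N₀ ≤ N →
    blockEntropy r z k N ≤ ε * (k : ℝ)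

/-- The non-zero base-`r` digits of `z` have density zero. -/
def Sparse (r : ℕ) (z : ℝ) : Prop :=
  Filter.Tendsto (fun N : ℕ =>
    (((Finset.range N).filter (fun n => digit r z n ≠ 0)).card : ℝ) / (N : ℝ))
    Filter.atTop (nhds 0)

/-- Along one sequence of lengths all block entropies of `z` have a common positive lower bound
per digit (so every weak limit of the empirical measures along a subsequence of these lengths has
positive entropy). -/
def PositiveEntropy (r : ℕ) (z : ℝ) : Prop :=
  ∃ c : ℝ, 0 < c ∧ ∃ N : ℕ → ℕ, StrictMono N ∧ ∀ k : ℕ, 1 ≤ k → ∃ j₀ : ℕ, ∀ j, j₀ ≤ j →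
    c * (k : ℝ) < blockEntropy r z k (N j)

/-- In every base `r ≥ 2` and for every irrational `b` there is a real `y`, whose non-zero digits
have density zero (so `y` is deterministic), such that `b * y` has positive entropy along a sequence
of lengths, hence is not deterministic. -/
theorem result : ∀ r : ℕ, 2 ≤ r → ∀ b : ℝ, Irrational b →
    ∃ y : ℝ, Sparse r y ∧ Deterministic r y ∧ PositiveEntropy r (b * y) ∧
      ¬ Deterministic r (b * y) := by
  intro r hr b hb
  obtain ⟨y, N, hN, hF, hy⟩ := Pool.Agent.H252.IrrMul.core hr hb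
  have hlog : 0 < Real.log (5 / 4) := Real.log_pos (by norm_num)
  refine ⟨y, ?_, ?_, ?_, ?_⟩
  · unfold Sparse
    rw [Metric.tendsto_atTop]
    intro ε hε
    obtain ⟨N₀, hN₀⟩ := hy (ε / 2) (by positivity)
    refine ⟨N₀ + 1, fun M hM => ?_⟩
    have hM0 : (0 : ℝ) < M := by
      have : 0 < M := by omega
      exact_mod_cast this
    rw [Real.dist_eq, sub_zero, abs_of_nonneg (by positivity), div_lt_iff₀ hM0]
    have h1 := hN₀ M (by omega)
    have h2 : ε / 2 * M < ε * M := by nlinarith
    exact lt_of_le_of_lt h1 h2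
  · intro ε hε
    obtain ⟨N₀, hN₀⟩ := Pool.Agent.H252.IrrMul.entropy_small hr hy ε hε
    refine ⟨1, le_rfl, N₀, fun M hM => ?_⟩
    have := hN₀ M hM
    rw [Nat.cast_one, mul_one]
    exact this
  · refine ⟨Real.log (5 / 4) / 6, by positivity, N, hN, fun k hk => ?_⟩
    exact Pool.Agent.H252.IrrMul.entropy_large_ev hr hN hF k hk
  · intro hD
    obtain ⟨k, hk, N₀, hN₀⟩ := hD (Real.log (5 / 4) / 6) (by positivity)
    obtain ⟨M, hM, hM'⟩ := Pool.Agent.H252.IrrMul.entropy_large hr hN hF k hk N₀
    exact absurd (hN₀ M hM) (not_le.mpr hM')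

end Pool.Agent.Results.MP_f44585_an.EveryBase
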